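import Mathlib

/-!
# Fiber products of free monoids: the combinatorial core

`Setup` collects two homomorphisms `F : A* → M`, `G : B* → M` with trivial kernel at `1`, a lift
`θ : B* → A*` with `F ∘ θ = G`, a map `φ : A* → B*` with `G ∘ φ = F`, and a finite family `e` of
pairs that generates `{(u, v) : F u = G v}`.
-/

set_option autoImplicit false

namespace Pool.Agent.X185.FIB

open List

/-- the data -/
structure Setup (A B M ι : Type*) [Monoid M] where
  F : List A → M
  G : List B → M
  F_app : ∀ u v, F (u ++ v) = F u * F v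
  G_app : ∀ u v, G (u ++ v) = G u * G v
  G_one : ∀ v, G v = 1 → v = []
  F_nil : F [] = 1
  G_nil : G [] = 1
  F_one : ∀ u, F u = 1 → u = []
  θ : List B → List A
  φ : List A → List B
  θ_app : ∀ v w, θ (v ++ w) = θ v ++ θ w
  θ_spec : ∀ v, F (θ v) = G v
  φ_spec : ∀ u, G (φ u) = F u
  e : ι → List A × List B
  e_ne1 : ∀ i, (e i).1 ≠ []
  e_ne2 : ∀ i, (e i).2 ≠ []
  e_mem : ∀ i, F (e i).1 = G (e i).2
  N : ℕ
  e_le1 : ∀ i, (e i).1.length ≤ N
  e_le2 : ∀ i, (e i).2.length ≤ N
  gen : ∀ u v, F u = G v → ∃ L : List ι, L.flatMap (fun i => (e i).1) = u ∧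
    L.flatMap (fun i => (e i).2) = v

variable {A B M ι : Type*} [Monoid M] (D : Setup A B M ι)

namespace Setup

/-- first component of the value of a word of generators -/
def U (L : List ι) : List A := L.flatMap (fun i => (D.e i).1)

/-- second component of the value of a word of generators -/
def V (L : List ι) : List B := L.flatMap (fun i => (D.e i).2)

@[simp] lemma U_nil : D.U [] = [] := rfl
@[simp] lemma V_nil : D.V [] = [] := rfl
@[simp] lemma U_cons (i : ι) (L : List ι) : D.U (i :: L) = (D.e i).1 ++ D.U L := by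
  simp [U]
@[simp] lemma V_cons (i : ι) (L : List ι) : D.V (i :: L) = (D.e i).2 ++ D.V L := by
  simp [V]
@[simp] lemma U_app (L L' : List ι) : D.U (L ++ L') = D.U L ++ D.U L' := by
  simp [U]
@[simp] lemma V_app (L L' : List ι) : D.V (L ++ L') = D.V L ++ D.V L' := by
  simp [V]

lemma FU (L : List ι) : D.F (D.U L) = D.G (D.V L) := by
  induction L with
  | nil => simp [D.F_nil, D.G_nil]
  | cons i L ih => rw [U_cons, V_cons, D.F_app, D.G_app, ih, D.e_mem]

lemma pos1 (i : ι) : 1 ≤ (D.e i).1.length := by
  have := List.length_pos_iff.2 (D.e_ne1 i)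
  omega

lemma pos2 (i : ι) : 1 ≤ (D.e i).2.length := by
  have := List.length_pos_iff.2 (D.e_ne2 i)
  omega

lemma len_le_U (L : List ι) : L.length ≤ (D.U L).length := by
  induction L with
  | nil => simp
  | cons i L ih =>
    have := D.pos1 i
    rw [U_cons, length_append, length_cons]
    omega

lemma len_le_V (L : List ι) : L.length ≤ (D.V L).length := by
  induction L with
  | nil => simp
  | cons i L ih =>
    have := D.pos2 i
    rw [V_cons, length_append, length_cons]
    omega

lemma U_le (L : List ι) : (D.U L).length ≤ D.N * L.length := by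
  induction L with
  | nil => simp
  | cons i L ih =>
    have := D.e_le1 i
    rw [U_cons, length_append, length_cons, mul_add, mul_one]
    omega

lemma V_le (L : List ι) : (D.V L).length ≤ D.N * L.length := by
  induction L with
  | nil => simp
  | cons i L ih =>
    have := D.e_le2 i
    rw [V_cons, length_append, length_cons, mul_add, mul_one]
    omega

lemma U_le_V (L : List ι) : (D.U L).length ≤ D.N * (D.V L).length :=
  (D.U_le L).trans (Nat.mul_le_mul_left _ (D.len_le_V L))

lemma bound1 {u : List A} {v : List B} (h : D.F u = D.G v) : u.length ≤ D.N * v.length := by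
  obtain ⟨L, h1, h2⟩ := D.gen u v h
  have h3 := D.U_le_V L
  unfold U V at h3
  rwa [h1, h2] at h3

lemma bound2 {u : List A} {v : List B} (h : D.F u = D.G v) : v.length ≤ D.N * u.length := by
  obtain ⟨L, h1, h2⟩ := D.gen u v h
  have h3 := (D.V_le L).trans (Nat.mul_le_mul_left _ (D.len_le_U L))
  unfold U V at h3
  rwa [h1, h2] at h3

/-- the power of a word -/
def rep {X : Type*} (n : ℕ) (x : List X) : List X := (List.replicate n x).flatten

lemma rep_succ {X : Type*} (n : ℕ) (x : List X) : rep (n + 1) x = x ++ rep n x := by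
  simp [rep, List.replicate_succ]

lemma rep_length {X : Type*} (n : ℕ) (x : List X) : (rep n x).length = n * x.length := by
  induction n with
  | zero => simp [rep]
  | succ n ih => rw [rep_succ, length_append, ih]; ring

lemma nil_of_bound {X : Type*} {x : List X} {C : ℕ} (h : ∀ n, (rep n x).length ≤ C) : x = [] := by
  have h1 := h (C + 1)
  rw [rep_length] at h1
  by_contra hx
  have h2 := List.length_pos_iff.2 hx
  have : (C + 1) * 1 ≤ (C + 1) * x.length := Nat.mul_le_mul_left _ h2
  omega

lemma P_F {u x : List A} (h : D.F (u ++ x) = D.F u) : x = [] := by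
  have h1 : ∀ n, D.F (u ++ rep n x) = D.F u := by
    intro n
    induction n with
    | zero => simp [rep]
    | succ n ih =>
      rw [rep_succ, ← List.append_assoc, D.F_app, h, ← D.F_app, ih]
  refine nil_of_bound (C := D.N * (D.φ u).length) fun n => ?_
  have h2 := D.bound1 ((h1 n).trans (D.φ_spec u).symm)
  rw [length_append] at h2
  omega

lemma U_F {u x : List A} (h : D.F (x ++ u) = D.F u) : x = [] := by
  have h1 : ∀ n, D.F (rep n x ++ u) = D.F u := by
    intro n
    induction n with
    | zero => simp [rep]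
    | succ n ih =>
      rw [rep_succ, List.append_assoc, D.F_app, ih, ← D.F_app, h]
  refine nil_of_bound (C := D.N * (D.φ u).length) fun n => ?_
  have h2 := D.bound1 ((h1 n).trans (D.φ_spec u).symm)
  rw [length_append] at h2
  omega

lemma θ_eq_nil {v : List B} (h : D.θ v = []) : v = [] := by
  have := D.θ_spec v
  rw [h, D.F_nil] at this
  exact D.G_one v this.symm

/-- comparable cuts -/
lemma chain {u x : List A} {v y : List B} (h1 : D.F u = D.G (v ++ y)) (h2 : D.F (u ++ x) = D.G v) :
    x = [] ∧ y = [] := by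
  have h : D.F (u ++ (x ++ D.θ y)) = D.F u := by
    rw [← List.append_assoc, D.F_app, h2, D.θ_spec, ← D.G_app, ← h1]
  have h3 := D.P_F h
  rw [List.append_eq_nil_iff] at h3
  exact ⟨h3.1, D.θ_eq_nil h3.2⟩

/-- cutting a word of generators -/
lemma cut (L : List ι) : ∀ n, n ≤ (D.V L).length → ∃ L1 L2, L = L1 ++ L2 ∧
    n ≤ (D.V L1).length ∧ (D.V L1).length ≤ n + D.N := by
  induction L with
  | nil =>
    intro n hn
    exact ⟨[], [], rfl, hn, by simp⟩
  | cons i L ih =>
    intro n hn
    rcases Nat.lt_or_ge n ((D.e i).2.length) with h | h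
    · refine ⟨[i], L, rfl, ?_, ?_⟩
      · simpa using h.le
      · have := D.e_le2 i
        simp only [V_cons, V_nil, List.append_nil]
        omega
    · rw [V_cons, length_append] at hn
      obtain ⟨L1, L2, h1, h2, h3⟩ := ih (n - (D.e i).2.length) (by omega)
      refine ⟨i :: L1, L2, by rw [h1]; rfl, ?_, ?_⟩ <;> rw [V_cons, length_append] <;> omega

lemma key {α : List A} {β w : List B} (h : D.F α * D.G w = D.G β * D.G w) :
    ∃ w0 w1, w = w0 ++ w1 ∧ w0.length ≤ D.N ∧ D.F α * D.G w0 = D.G β * D.G w0 := by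
  obtain ⟨L, hU, hV⟩ := D.gen (D.θ (β ++ w)) (D.φ α ++ w) (by
    rw [D.θ_spec, D.G_app, D.G_app, D.φ_spec, h])
  change D.U L = _ at hU
  change D.V L = _ at hV
  obtain ⟨L1, L2, hL, h1, h2⟩ := D.cut L (D.φ α).length (by rw [hV, length_append]; omega)
  rw [hL, V_app] at hV
  rw [hL, U_app] at hU
  obtain ⟨w0, hw0, hw⟩ : ∃ w0, D.V L1 = D.φ α ++ w0 ∧ w = w0 ++ D.V L2 := by
    rcases List.append_eq_append_iff.1 hV with ⟨c, hc1, hc2⟩ | ⟨c, hc1, hc2⟩
    · have : c = [] := by
        have h3 := congrArg List.length hc1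
        rw [length_append] at h3
        exact List.length_eq_zero_iff.1 (by omega)
      subst this
      exact ⟨[], by simpa using hc1.symm, by simpa using hc2.symm⟩
    · exact ⟨c, hc1, hc2⟩
  refine ⟨w0, D.V L2, hw, ?_, ?_⟩
  · rw [hw0, length_append] at h2
    omega
  · have h3 : D.U L1 = D.θ (β ++ w0) := by
      rw [hw, ← List.append_assoc, D.θ_app] at hU
      have h4 : D.F (D.U L2) = D.F (D.θ (D.V L2)) := by rw [D.FU, D.θ_spec]
      rcases List.append_eq_append_iff.1 hU with ⟨c, hc1, hc2⟩ | ⟨c, hc1, hc2⟩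
      · rw [hc2] at h4
        have := D.U_F h4
        subst this
        simpa using hc1.symm
      · rw [hc2] at h4
        have := D.U_F h4.symm
        subst this
        simpa using hc1
    have h5 := D.FU L1
    rw [h3, hw0, D.θ_spec, D.G_app, D.G_app, D.φ_spec] at h5
    exact h5.symm

/-- the finitely many relations -/
def R (L L' : List ι) : Prop :=
  D.U L = D.U L' ∧ D.V L = D.V L' ∧
    (D.U L).length + (D.V L).length ≤ 2 * D.N * D.N + 4 * D.N

/-- the congruence generated by `R` on all words -/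
inductive Eqv : List ι → List ι → Prop
  | rel {a b : List ι} : D.R a b → Eqv a b
  | refl (a : List ι) : Eqv a a
  | symm {a b : List ι} : Eqv a b → Eqv b a
  | trans {a b c : List ι} : Eqv a b → Eqv b c → Eqv a c
  | app {a b c d : List ι} : Eqv a b → Eqv c d → Eqv (a ++ c) (b ++ d)

lemma step {i j : ι} {L L' : List ι} {α : List A} {β : List B}
    (ha : (D.e j).1 = (D.e i).1 ++ α) (hb : (D.e j).2 = (D.e i).2 ++ β)
    (hU : D.U (i :: L) = D.U (j :: L')) (hV : D.V (i :: L) = D.V (j :: L'))
    (ih : ∀ K : List ι, D.U L = D.U K → D.V L = D.V K → D.Eqv L K) :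
    D.Eqv (i :: L) (j :: L') := by
  rw [U_cons, U_cons, ha, List.append_assoc, List.append_cancel_left_eq] at hU
  rw [V_cons, V_cons, hb, List.append_assoc, List.append_cancel_left_eq] at hV
  have h1 : D.F α * D.G (D.V L') = D.G β * D.G (D.V L') := by
    have := D.FU L
    rw [hU, hV, D.F_app, D.G_app, D.FU L'] at this
    exact this
  obtain ⟨w0, w1, hw, hw0, h2⟩ := D.key h1
  obtain ⟨Pre, Post, hL', h3, h4⟩ := D.cut L' w0.length (by rw [hw, length_append]; omega)
  obtain ⟨w', hw'⟩ : ∃ w', D.V Pre = w0 ++ w' := by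
    have h5 : D.V Pre ++ D.V Post = w0 ++ w1 := by rw [← V_app, ← hL', hw]
    rcases List.append_eq_append_iff.1 h5 with ⟨c, hc1, hc2⟩ | ⟨c, hc1, hc2⟩
    · have : c = [] := by
        have h6 := congrArg List.length hc1
        rw [length_append] at h6
        exact List.length_eq_zero_iff.1 (by omega)
      subst this
      exact ⟨[], by simpa using hc1.symm⟩
    · exact ⟨c, hc1⟩
  have h5 : D.F (α ++ D.U Pre) = D.G (β ++ D.V Pre) := by
    rw [D.F_app, D.G_app, D.FU Pre, hw', D.G_app, ← mul_assoc, ← mul_assoc, h2]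
  obtain ⟨E, hEU, hEV⟩ := D.gen _ _ h5
  change D.U E = _ at hEU
  change D.V E = _ at hEV
  have h6 : D.Eqv L (E ++ Post) := by
    apply ih
    · rw [hU, U_app, hEU, hL', U_app, List.append_assoc]
    · rw [hV, V_app, hEV, hL', V_app, List.append_assoc]
  have h7 : D.Eqv (i :: E) (j :: Pre) := by
    apply Eqv.rel
    have hu : D.U (i :: E) = (D.e j).1 ++ D.U Pre := by
      rw [U_cons, hEU, ha, List.append_assoc]
    have hv : D.V (i :: E) = (D.e j).2 ++ D.V Pre := by
      rw [V_cons, hEV, hb, List.append_assoc]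
    refine ⟨by rw [hu, U_cons], by rw [hv, V_cons], ?_⟩
    rw [hu, hv, length_append, length_append]
    have h8 := D.e_le1 j
    have h9 := D.e_le2 j
    have h10 := D.U_le_V Pre
    have h11 : D.N * (D.V Pre).length ≤ D.N * (2 * D.N) := Nat.mul_le_mul_left _ (by omega)
    have h12 : D.N * (2 * D.N) = 2 * D.N * D.N := by ring
    omega
  have h8 : D.Eqv (i :: L) (i :: (E ++ Post)) := Eqv.app (Eqv.refl [i]) h6
  have h9 : D.Eqv (i :: E ++ Post) (j :: Pre ++ Post) := Eqv.app h7 (Eqv.refl Post)
  rw [hL']
  exact h8.trans h9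

theorem main : ∀ (n : ℕ) (L L' : List ι), (D.U L).length ≤ n → D.U L = D.U L' →
    D.V L = D.V L' → D.Eqv L L' := by
  intro n
  induction n with
  | zero =>
    intro L L' hn hU hV
    have h1 := D.len_le_U L
    have h2 := D.len_le_U L'
    rw [← hU] at h2
    have h3 : L = [] := List.length_eq_zero_iff.1 (by omega)
    have h4 : L' = [] := List.length_eq_zero_iff.1 (by omega)
    rw [h3, h4]
    exact Eqv.refl []
  | succ n ih =>
    intro L L' hn hU hV
    rcases L with _ | ⟨i, L⟩
    · have h2 := D.len_le_U L'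
      rw [← hU] at h2
      have h4 : L' = [] := List.length_eq_zero_iff.1 (by simpa using h2)
      rw [h4]
      exact Eqv.refl []
    rcases L' with _ | ⟨j, L'⟩
    · have h2 := D.len_le_U (i :: L)
      rw [hU] at h2
      simp at h2
    have hi := D.pos1 i
    have hj := D.pos1 j
    have ih1 : ∀ K : List ι, D.U L = D.U K → D.V L = D.V K → D.Eqv L K := by
      intro K h1 h2
      refine ih L K ?_ h1 h2
      rw [U_cons, length_append] at hn
      omega
    have ih2 : ∀ K : List ι, D.U L' = D.U K → D.V L' = D.V K → D.Eqv L' K := by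
      intro K h1 h2
      refine ih L' K ?_ h1 h2
      rw [hU, U_cons, length_append] at hn
      omega
    have hU' := hU
    have hV' := hV
    rw [U_cons, U_cons] at hU'
    rw [V_cons, V_cons] at hV'
    rcases List.append_eq_append_iff.1 hU' with ⟨α, hα, _⟩ | ⟨α, hα, _⟩ <;>
      rcases List.append_eq_append_iff.1 hV' with ⟨β, hβ, _⟩ | ⟨β, hβ, _⟩
    · exact D.step hα hβ hU hV ih1
    · have h1 := D.chain (u := (D.e i).1) (x := α) (v := (D.e j).2) (y := β)
        (by rw [← hβ, D.e_mem]) (by rw [← hα, D.e_mem])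
      obtain ⟨rfl, rfl⟩ := h1
      exact D.step (β := []) hα (by simpa using hβ.symm) hU hV ih1
    · have h1 := D.chain (u := (D.e j).1) (x := α) (v := (D.e i).2) (y := β)
        (by rw [← hβ, D.e_mem]) (by rw [← hα, D.e_mem])
      obtain ⟨rfl, rfl⟩ := h1
      exact D.step (α := []) (by simpa using hα.symm) hβ hU hV ih1
    · exact (D.step hα hβ hU.symm hV.symm ih2).symm

end Setup

end Pool.Agent.X185.FIB
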